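import Pool.Agent.P.MP_163cb0_co.Grow

set_option autoImplicit false

namespace Pool.Agent.LP163

open Relation List

def outs : Fin 19 → List (Fin 19) :=
  ![[1, 6], [2, 7], [0, 8], [5, 17], [3, 15], [4, 16], [1, 10, 13], [2, 11, 14], [0, 9, 12],
    [4, 13], [5, 14], [3, 12], [18], [15], [16], [6, 9, 17], [7, 10, 15], [8, 11, 16], [17]]

def adj (s t : Fin 19) : Prop := t ∈ outs s

instance adjDec : DecidableRel adj := fun s t => inferInstanceAs (Decidable (t ∈ outs s))

def chk (Q : List (Fin 19) → Bool) : ℕ → Fin 19 → List (Fin 19) → Bool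
  | 0, _, acc => Q acc
  | k + 1, v, acc => Q acc && (outs v).all fun y => acc.contains y || chk Q k y (y :: acc)

theorem chk_sound (Q : List (Fin 19) → Bool) : ∀ (t : List (Fin 19)) (k : ℕ) (v : Fin 19)
    (acc : List (Fin 19)), chk Q k v acc = true → t.length ≤ k → (v :: t).IsChain adj → t.Nodup →
      (∀ z ∈ t, z ∉ acc) → Q (t.reverse ++ acc) = true := by
  intro t
  induction t with
  | nil =>
    intro k v acc h _ _ _ _
    cases k with
    | zero => exact h
    | succ k => exact (Bool.and_eq_true_iff.1 h).1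
  | cons y t ih =>
    intro k v acc h hl hc hn hd
    cases k with
    | zero => simp at hl
    | succ k =>
      rw [isChain_cons_cons] at hc
      rw [nodup_cons] at hn
      have h1 := all_eq_true.1 (Bool.and_eq_true_iff.1 h).2 y hc.1
      have h2 : acc.contains y = false := by simpa using hd y mem_cons_self
      rw [h2, Bool.false_or] at h1
      have := ih k y _ h1 (by simpa using hl) hc.2 hn.2 fun z hz e => by
        rcases mem_cons.1 e with rfl | e
        · exact hn.1 hz
        · exact hd z (mem_cons_of_mem _ hz) e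
      simpa using this

def test (s : Fin 19) (acc : List (Fin 19)) : Bool :=
  decide (acc.length ≤ 18 ∧ (acc.length = 18 → s = 0 ∨ s = 1 ∨ s = 2) ∧
    (s = 17 → (18 : Fin 19) ∈ acc → acc.length ≤ 16))

theorem chk_all : ∀ s : Fin 19, chk (test s) 18 s [s] = true := by decide +kernel

theorem base_path (s : Fin 19) (t : List (Fin 19)) (hn : (s :: t).Nodup)
    (hc : (s :: t).IsChain adj) : t.length + 1 ≤ 18 ∧ (t.length + 1 = 18 → s = 0 ∨ s = 1 ∨ s = 2) ∧
      (s = 17 → (18 : Fin 19) ∈ t → t.length + 1 ≤ 16) := by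
  have hl := hn.length_le_card
  rw [nodup_cons] at hn
  have := chk_sound _ t 18 s [s] (chk_all s) (by simp at hl; omega) hc hn.2 fun z hz e =>
    hn.1 (mem_singleton.1 e ▸ hz)
  simp only [test, decide_eq_true_eq, length_append, length_reverse, length_singleton] at this
  exact ⟨this.1, this.2.1, fun a b => this.2.2 a (by simp [b])⟩

theorem chain_reach {V : Type} {A : V → V → Prop} : ∀ (t : List V) (s : V), (s :: t).IsChain A →
    ∀ z ∈ s :: t, ReflTransGen A s z
  | [], s, _, z, hz => by rw [mem_singleton.1 hz]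
  | y :: t, s, hc, z, hz => by
    rw [isChain_cons_cons] at hc
    rcases mem_cons.1 hz with rfl | hz
    · exact .refl
    · exact .head hc.1 (chain_reach t y hc.2 z hz)

def wk : Fin 19 → List (Fin 19) :=
  ![[], [2, 0], [0], [17, 8, 0], [3, 17, 8, 0], [16, 7, 2, 0], [1, 2, 0], [2, 0], [0],
    [4, 3, 17, 8, 0], [14, 16, 7, 2, 0], [3, 17, 8, 0], [18, 17, 8, 0], [15, 17, 8, 0],
    [16, 7, 2, 0], [17, 8, 0], [7, 2, 0], [8, 0], [17, 8, 0]]

theorem base : Good adj 18 0 1 2 18 12 17 := by
  refine ⟨by decide +kernel, fun s t => ?_, fun l hn hc => ?_,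
    fun s t hn hc => (base_path s t hn hc).2.1,
    fun t hn hc e => by have := (base_path _ t hn hc).2.2 rfl e; omega,
    by decide, by decide, by decide, fun z hz => ?_, by decide +kernel, by decide +kernel⟩
  · have h1 : ∀ s : Fin 19, (s :: wk s).IsChain adj ∧ 0 ∈ s :: wk s := by decide +kernel
    refine (chain_reach _ s (h1 s).1 0 (h1 s).2).trans (chain_reach
      [1, 2, 0, 6, 10, 14, 16, 7, 2, 8, 12, 18, 17, 11, 3, 5, 4, 15, 9, 13] 0 (by decide +kernel) t
      ?_)
    revert t
    decide +kernel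
  · cases l with
    | nil => simp
    | cons s t => exact (base_path s t hn hc).1
  · rcases hz with rfl | rfl | rfl
    · exact ⟨[2, 8, 9, 13, 15, 6, 1, 7, 14, 16, 10, 5, 4, 3, 17, 11, 12, 18], by decide +kernel⟩
    · exact ⟨[0, 6, 10, 14, 16, 7, 2, 8, 12, 18, 17, 11, 3, 5, 4, 15, 9, 13], by decide +kernel⟩
    · exact ⟨[1, 7, 11, 12, 18, 17, 8, 0, 6, 13, 15, 9, 4, 3, 5, 16, 10, 14], by decide +kernel⟩

theorem family (p q : ℕ) : ∃ (V : Type) (_ : Fintype V) (A : V → V → Prop) (a b c x u w : V),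
    Fintype.card V = 19 + p + q ∧ Good A (18 + p) a b c x u w := by
  induction q with
  | zero =>
    induction p with
    | zero => exact ⟨Fin 19, inferInstance, adj, 0, 1, 2, 18, 12, 17, by simp, base⟩
    | succ p ih =>
      obtain ⟨V, _, A, a, b, c, x, u, w, h1, h2⟩ := ih
      exact ⟨Option V, inferInstance, _, _, _, _, _, _, _, by simp [h1]; omega, h2.grow⟩
  | succ q ih =>
    obtain ⟨V, _, A, a, b, c, x, u, w, h1, h2⟩ := ih
    exact ⟨Option V, inferInstance, _, _, _, _, _, _, _, by simp [h1]; omega, h2.copy⟩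

theorem main (n m : ℕ) (hm : 18 ≤ m) (hn : m ≤ n) :
    (∀ (V : Type) [Fintype V] (A : V → V → Prop), Fintype.card V = n →
      (∀ s t, A s t → ¬ A t s) → (∀ s t, ReflTransGen A s t) →
      IsGreatest {k | ∃ l : List V, l.Nodup ∧ l.IsChain A ∧ l.length = k} m →
      ∃ S : Set V, (∀ s ∈ S, ∀ t ∈ S, ¬ A s t) ∧
        (∀ l : List V, l.Nodup → l.IsChain A → l.length = m → ∃ s ∈ l, s ∈ S) ∧
        ∀ s ∈ S, ∃ l : List V, l.Nodup ∧ l.IsChain A ∧ l.length = m ∧ l.head? = some s) ↔
    n = m := by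
  constructor
  · intro H
    by_contra ne
    obtain ⟨V, _, A, a, b, c, x, u, w, h1, h⟩ := family (m - 18) (n - m - 1)
    rw [show 18 + (m - 18) = m by omega] at h
    obtain ⟨S, s1, s2, s3⟩ := H V A (by omega) h.asym h.strong ⟨by
      obtain ⟨l, p, q, r, _⟩ := h.miss a (by simp)
      exact ⟨l, p, q, r⟩, by
      rintro k ⟨l, p, q, rfl⟩
      exact h.max l p q⟩
    have o : ∀ s ∈ S, s = a ∨ s = b ∨ s = c := by
      intro s hs
      obtain ⟨l, p, q, r, e⟩ := s3 s hs
      obtain ⟨t, rfl⟩ := head?_eq_some_iff.1 e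
      exact h.org s t p q r
    have mt : ∀ z, z = a ∨ z = b ∨ z = c → ∃ s ∈ S, s ≠ z := by
      intro z hz
      obtain ⟨l, p, q, r, e, _⟩ := h.miss z hz
      obtain ⟨s, e1, e2⟩ := s2 l p q r
      exact ⟨s, e2, fun e' => e (e' ▸ e1)⟩
    obtain ⟨s, hs, _⟩ := mt a (by simp)
    obtain ⟨t, ht, st⟩ := mt s (o s hs)
    rcases o s hs with rfl | rfl | rfl <;> rcases o t ht with rfl | rfl | rfl <;>
      first
        | exact st rfl
        | exact s1 _ hs _ ht h.ab
        | exact s1 _ ht _ hs h.ab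
        | exact s1 _ hs _ ht h.bc
        | exact s1 _ ht _ hs h.bc
        | exact s1 _ hs _ ht h.ca
        | exact s1 _ ht _ hs h.ca
  · rintro rfl V _ A hc asym _ ⟨⟨l, p, q, r⟩, _⟩
    classical
    match l, p, q, r with
    | [], _, _, r => simp at r; omega
    | s :: t, p, q, r =>
      refine ⟨{s}, ?_, fun l p' _ r' => ⟨s, ?_, rfl⟩, ?_⟩
      · rintro _ rfl _ rfl e
        exact asym _ _ e e
      · have : l.toFinset = Finset.univ :=
          Finset.eq_univ_of_card _ (by rw [toFinset_card_of_nodup p', r', hc])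
        exact mem_toFinset.1 (this ▸ Finset.mem_univ s)
      · rintro _ rfl
        exact ⟨_, p, q, r, rfl⟩

end Pool.Agent.LP163
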