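import Mathlib

set_option autoImplicit false

namespace Pool.Agent.P.MP_163cb0_co

/-- Out-neighbour lists of a 13-vertex oriented graph with a cyclic symmetry of order three. -/
def outs : Fin 13 → List (Fin 13) :=
  ![[1, 7], [2, 8], [0, 3], [0, 4], [5], [3, 6, 11], [7, 10, 11], [1, 12], [2, 9], [10],
    [5, 8, 11], [], [6]]

def adj (u v : Fin 13) : Bool := (outs u).contains v

def D : Digraph (Fin 13) := ⟨fun u v => adj u v = true⟩

/-- `ext k v used`: some path continues from `v` by `k` further vertices outside `used`. -/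
def ext : ℕ → Fin 13 → List (Fin 13) → Bool
  | 0, _, _ => true
  | k + 1, v, used => (outs v).any fun w => !(used.contains w) && ext k w (w :: used)

theorem ext_of_path : ∀ (k m : ℕ) (q : Fin (m + 1) → Fin 13) (used : List (Fin 13)),
    k ≤ m → Function.Injective q → (∀ i : Fin m, D.Adj (q i.castSucc) (q i.succ)) →
    (∀ i : Fin m, q i.succ ∉ used) → ext k (q 0) used = true := by
  intro k
  induction k with
  | zero => intro m q used _ _ _ _; rfl
  | succ k ih =>
    intro m q used hk hinj hadj hused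
    obtain ⟨m, rfl⟩ : ∃ m', m = m' + 1 := ⟨m - 1, by omega⟩
    have h0 : adj (q 0) (q (Fin.succ 0)) = true := hadj 0
    have hrec := ih m (fun i => q i.succ) (q (Fin.succ 0) :: used) (by omega)
      (hinj.comp (Fin.succ_injective _))
      (fun i => by
        have := hadj i.succ
        rwa [← Fin.succ_castSucc] at this)
      (fun i => by
        intro hmem
        rcases List.mem_cons.1 hmem with h | h
        · have := Fin.succ_injective _ (hinj h)
          exact Fin.succ_ne_zero _ this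
        · exact hused _ h)
    unfold ext
    rw [List.any_eq_true]
    refine ⟨q (Fin.succ 0), ?_, ?_⟩
    · simpa [adj] using h0
    · rw [Bool.and_eq_true]
      refine ⟨?_, hrec⟩
      have := hused 0
      simpa using this

theorem no_twelve : ∀ v : Fin 13, ext 11 v [v] = false := by decide +kernel

theorem origin_eleven : ∀ v : Fin 13, ext 10 v [v] = true → v = 0 ∨ v = 1 ∨ v = 2 := by
  decide +kernel

theorem ext_start (k m : ℕ) (q : Fin (m + 1) → Fin 13) (hk : k ≤ m)
    (hinj : Function.Injective q) (hadj : ∀ i : Fin m, D.Adj (q i.castSucc) (q i.succ)) :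
    ext k (q 0) [q 0] = true :=
  ext_of_path k m q [q 0] hk hinj hadj (fun i h => by
    have := hinj (List.mem_singleton.1 h)
    exact Fin.succ_ne_zero _ this)

theorem le_ten (m : ℕ) (q : Fin (m + 1) → Fin 13)
    (hinj : Function.Injective q) (hadj : ∀ i : Fin m, D.Adj (q i.castSucc) (q i.succ)) :
    m ≤ 10 := by
  by_contra h
  have h1 := ext_start 11 m q (by omega) hinj hadj
  rw [no_twelve] at h1
  exact Bool.false_ne_true h1

def pa : Fin 11 → Fin 13 := ![2, 3, 4, 5, 6, 7, 1, 8, 9, 10, 11]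
def pb : Fin 11 → Fin 13 := ![0, 7, 12, 6, 10, 8, 2, 3, 4, 5, 11]
def pc : Fin 11 → Fin 13 := ![1, 8, 9, 10, 5, 3, 0, 7, 12, 6, 11]

theorem pa_inj : Function.Injective pa := by decide +kernel
theorem pb_inj : Function.Injective pb := by decide +kernel
theorem pc_inj : Function.Injective pc := by decide +kernel
theorem pa_adj : ∀ i : Fin 10, adj (pa i.castSucc) (pa i.succ) = true := by decide +kernel
theorem pb_adj : ∀ i : Fin 10, adj (pb i.castSucc) (pb i.succ) = true := by decide +kernel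
theorem pc_adj : ∀ i : Fin 10, adj (pc i.castSucc) (pc i.succ) = true := by decide +kernel
theorem pa_miss : ∀ i : Fin 11, pa i ≠ 0 := by decide +kernel
theorem pb_miss : ∀ i : Fin 11, pb i ≠ 1 := by decide +kernel
theorem pc_miss : ∀ i : Fin 11, pc i ≠ 2 := by decide +kernel

theorem main :
    ¬ (∀ (V : Type) [Fintype V] (D : Digraph V),
      ∃ S : Set V,
        (∀ u ∈ S, ∀ v ∈ S, u ≠ v → ¬ D.Adj u v) ∧
        (∀ (n : ℕ) (p : Fin (n + 1) → V),
            (Function.Injective p ∧
              (∀ i : Fin n, D.Adj (p i.castSucc) (p i.succ)) ∧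
              ∀ (m : ℕ) (q : Fin (m + 1) → V), Function.Injective q →
                (∀ i : Fin m, D.Adj (q i.castSucc) (q i.succ)) → m ≤ n) →
            ∃ i : Fin (n + 1), p i ∈ S) ∧
        (∀ s ∈ S, ∃ (n : ℕ) (p : Fin (n + 1) → V),
            (Function.Injective p ∧
              (∀ i : Fin n, D.Adj (p i.castSucc) (p i.succ)) ∧
              ∀ (m : ℕ) (q : Fin (m + 1) → V), Function.Injective q →
                (∀ i : Fin m, D.Adj (q i.castSucc) (q i.succ)) → m ≤ n) ∧
            p 0 = s)) := by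
  intro h
  obtain ⟨S, hind, hmeet, horig⟩ := h (Fin 13) D
  have hS : ∀ s ∈ S, s = 0 ∨ s = 1 ∨ s = 2 := by
    intro s hs
    obtain ⟨n, p, ⟨hinj, hadj, hmax⟩, hp⟩ := horig s hs
    have h10 : 10 ≤ n := hmax 10 pa pa_inj pa_adj
    have := ext_start 10 n p h10 hinj hadj
    rw [hp] at this
    exact origin_eleven s this
  obtain ⟨i, hi⟩ := hmeet 10 pa ⟨pa_inj, pa_adj, le_ten⟩
  obtain ⟨j, hj⟩ := hmeet 10 pb ⟨pb_inj, pb_adj, le_ten⟩
  obtain ⟨k, hk⟩ := hmeet 10 pc ⟨pc_inj, pc_adj, le_ten⟩
  have a01 : D.Adj 0 1 := by show adj 0 1 = true; decide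
  have a12 : D.Adj 1 2 := by show adj 1 2 = true; decide
  have a20 : D.Adj 2 0 := by show adj 2 0 = true; decide
  have n01 : ¬ ((0 : Fin 13) ∈ S ∧ (1 : Fin 13) ∈ S) :=
    fun hh => hind 0 hh.1 1 hh.2 (by decide) a01
  have n12 : ¬ ((1 : Fin 13) ∈ S ∧ (2 : Fin 13) ∈ S) :=
    fun hh => hind 1 hh.1 2 hh.2 (by decide) a12
  have n20 : ¬ ((2 : Fin 13) ∈ S ∧ (0 : Fin 13) ∈ S) :=
    fun hh => hind 2 hh.1 0 hh.2 (by decide) a20
  have hA : (1 : Fin 13) ∈ S ∨ (2 : Fin 13) ∈ S := by
    rcases hS _ hi with h | h | h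
    · exact absurd h (pa_miss i)
    · exact Or.inl (h ▸ hi)
    · exact Or.inr (h ▸ hi)
  have hB : (0 : Fin 13) ∈ S ∨ (2 : Fin 13) ∈ S := by
    rcases hS _ hj with h | h | h
    · exact Or.inl (h ▸ hj)
    · exact absurd h (pb_miss j)
    · exact Or.inr (h ▸ hj)
  have hC : (0 : Fin 13) ∈ S ∨ (1 : Fin 13) ∈ S := by
    rcases hS _ hk with h | h | h
    · exact Or.inl (h ▸ hk)
    · exact Or.inr (h ▸ hk)
    · exact absurd h (pc_miss k)
  tauto

end Pool.Agent.P.MP_163cb0_co
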