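import Mathlib

set_option autoImplicit false

namespace Pool.Agent.LP163

open Relation List

variable {V : Type}

structure Good (A : V → V → Prop) (k : ℕ) (a b c x u w : V) : Prop where
  asym : ∀ s t, A s t → ¬ A t s
  strong : ∀ s t, ReflTransGen A s t
  max : ∀ l : List V, l.Nodup → l.IsChain A → l.length ≤ k
  org : ∀ s (t : List V), (s :: t).Nodup → (s :: t).IsChain A → t.length + 1 = k →
    s = a ∨ s = b ∨ s = c
  cyc : ∀ t : List V, (w :: t).Nodup → (w :: t).IsChain A → x ∈ t → t.length + 3 ≤ k
  ab : A a b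
  bc : A b c
  ca : A c a
  miss : ∀ z, z = a ∨ z = b ∨ z = c →
    ∃ l : List V, l.Nodup ∧ l.IsChain A ∧ l.length = k ∧ z ∉ l ∧ x ∈ l
  inn : ∀ s, A s x ↔ s = u
  out : ∀ s, A x s ↔ s = w

theorem Good.nx {A : V → V → Prop} {k : ℕ} {a b c x u w : V} (h : Good A k a b c x u w) (z : V)
    (hz : z = a ∨ z = b ∨ z = c) : z ≠ x := by
  obtain ⟨l, _, _, _, h1, h2⟩ := h.miss z hz
  rintro rfl
  exact h1 h2

theorem ex_pred {A : V → V → Prop} {z : V} : ∀ (t : List V) (s : V), (s :: t).IsChain A → z ∈ t →
    ∃ r ∈ s :: t, A r z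
  | [], _, _, h => by simp at h
  | y :: t, s, hc, h => by
    rw [isChain_cons_cons] at hc
    rcases mem_cons.1 h with rfl | h
    · exact ⟨s, mem_cons_self, hc.1⟩
    · obtain ⟨r, a, b⟩ := ex_pred t y hc.2 h
      exact ⟨r, mem_cons_of_mem _ a, b⟩

theorem pred_uniq {A : V → V → Prop} {p q u : V} (hp : ∀ r, A r p → r = u)
    (hq : ∀ r, A r q → r = u) : ∀ (t : List V) (s : V), (s :: t).Nodup → (s :: t).IsChain A →
      p ∈ t → q ∈ t → p = q
  | [], _, _, _, h, _ => by simp at h
  | y :: t, s, hn, hc, a, b => by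
    rw [isChain_cons_cons] at hc
    rw [nodup_cons] at hn
    rcases mem_cons.1 a with rfl | a' <;> rcases mem_cons.1 b with e | b'
    · exact e.symm
    · obtain ⟨r, c, d⟩ := ex_pred t _ hc.2 b'
      exact (hn.1 (by rw [hp s hc.1, ← hq r d]; exact c)).elim
    · subst e
      obtain ⟨r, c, d⟩ := ex_pred t _ hc.2 a'
      exact (hn.1 (by rw [hq s hc.1, ← hp r d]; exact c)).elim
    · exact pred_uniq hp hq t y hn.2 hc.2 a' b'

theorem Good.copy {A : V → V → Prop} {k : ℕ} {a b c x u w : V} (h : Good A k a b c x u w) :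
    Good (fun s t : Option V => A (s.getD x) (t.getD x)) k (some a) (some b) (some c) (some x)
      (some u) (some w) := by
  have xx : ¬ A x x := fun e => h.asym _ _ e e
  have ux : u ≠ x := fun e => xx ((h.inn x).2 e.symm)
  have wx : w ≠ x := fun e => xx ((h.out x).2 e.symm)
  have eq : ∀ (s : Option V) (z : V), z ≠ x → (s.getD x = z ↔ s = some z) := by
    intro s z hz
    cases s <;> simp [hz.symm]
  have ch : ∀ l : List (Option V), l.IsChain (fun s t => A (s.getD x) (t.getD x)) →
      (l.map (·.getD x)).IsChain A := fun l hl => (isChain_map _).2 hl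
  have nd : ∀ l : List (Option V), l.Nodup → ¬ (none ∈ l ∧ some x ∈ l) →
      (l.map (·.getD x)).Nodup := by
    intro l hl hb
    refine hl.map_on fun p hp q hq e => ?_
    cases p <;> cases q <;> simp only [Option.getD] at e
    · rfl
    · exact (hb ⟨hp, e ▸ hq⟩).elim
    · exact (hb ⟨hq, e ▸ hp⟩).elim
    · rw [e]
  have tl : ∀ (s : Option V) t, (s :: t).Nodup →
      (s :: t).IsChain (fun s t => A (s.getD x) (t.getD x)) → ¬ (none ∈ t ∧ some x ∈ t) := by
    intro s t hn hc hb
    have := pred_uniq (u := some u) (fun r e => (eq r u ux).1 ((h.inn _).1 e))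
      (fun r e => (eq r u ux).1 ((h.inn _).1 e)) t s hn hc hb.1 hb.2
    cases this
  have both : ∀ l : List (Option V), l.Nodup → l.IsChain (fun s t => A (s.getD x) (t.getD x)) →
      none ∈ l ∧ some x ∈ l → l.length + 1 ≤ k := by
    intro l hn hc hb
    match l, hn, hc, hb with
    | [], _, _, hb => simp at hb
    | [s], _, _, hb => simp at hb; exact absurd (hb.1.trans hb.2.symm) (by simp)
    | s :: y :: t, hn, hc, hb =>
      have h1 := tl s _ hn hc
      have h2 : s.getD x = x ∧ x ∈ (y :: t).map (·.getD x) := by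
        rcases mem_cons.1 hb.1 with rfl | p
        · exact ⟨rfl, mem_map.2 ⟨some x, by simpa using hb.2, rfl⟩⟩
        · rcases mem_cons.1 hb.2 with rfl | q
          · exact ⟨rfl, mem_map.2 ⟨none, p, rfl⟩⟩
          · exact (h1 ⟨p, q⟩).elim
      rw [isChain_cons_cons, h2.1] at hc
      have h3 := (h.out _).1 hc.1
      have h4 := nd _ (nodup_cons.1 hn).2 h1
      have h5 := ch _ hc.2
      have h6 := h2.2
      rw [map_cons, h3] at h4 h5 h6
      have := h.cyc _ h4 h5 ((mem_cons.1 h6).resolve_left wx.symm)
      simp at this ⊢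
      omega
  have lift : ∀ s t, ReflTransGen (fun s t : Option V => A (s.getD x) (t.getD x)) (some s)
      (some t) := fun s t => (h.strong s t).lift some fun _ _ e => e
  refine ⟨fun s t => h.asym _ _, fun s t => ?_, fun l hn hc => ?_, fun s t hn hc e => ?_,
    fun t hn hc e => ?_, h.ab, h.bc, h.ca, fun z hz => ?_, fun s => ?_, fun s => ?_⟩
  · have p : ReflTransGen (fun s t : Option V => A (s.getD x) (t.getD x)) s (some w) := by
      cases s
      exacts [.single ((h.out w).2 rfl), lift _ _]
    have q : ReflTransGen (fun s t : Option V => A (s.getD x) (t.getD x)) (some u) t := by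
      cases t
      exacts [.single ((h.inn u).2 rfl), lift _ _]
    exact p.trans ((lift _ _).trans q)
  · by_cases hb : none ∈ l ∧ some x ∈ l
    · have := both l hn hc hb; omega
    · simpa using h.max _ (nd l hn hb) (ch l hc)
  · by_cases hb : none ∈ s :: t ∧ some x ∈ s :: t
    · have := both _ hn hc hb; simp at this; omega
    · have := h.org _ _ (nd _ hn hb) (ch _ hc) (by simpa using e)
      rwa [eq s a (h.nx a (by simp)), eq s b (h.nx b (by simp)), eq s c (h.nx c (by simp))] at this
  · have hb : ¬ (none ∈ some w :: t ∧ some x ∈ some w :: t) := fun hb =>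
      tl _ t hn hc ⟨by simpa using hb.1, e⟩
    simpa using h.cyc _ (nd _ hn hb) (ch _ hc) (mem_map.2 ⟨_, e, rfl⟩)
  · obtain ⟨y, rfl, hy⟩ : ∃ y, z = some y ∧ (y = a ∨ y = b ∨ y = c) := by
      rcases hz with rfl | rfl | rfl <;> simp
    obtain ⟨l, h1, h2, h3, h4, h5⟩ := h.miss y hy
    exact ⟨l.map some, h1.map (Option.some_injective _), (isChain_map _).2 h2, by simpa using h3,
      by simpa using h4, by simpa using h5⟩
  · exact (h.inn _).trans (eq s u ux)
  · exact (h.out _).trans (eq s w wx)

/-- subdivide the arc from `x` to `w` -/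
def sub (A : V → V → Prop) (x w : V) : Option V → Option V → Prop
  | some s, some t => A s t ∧ s ≠ x
  | some s, none => s = x
  | none, some t => t = w
  | none, none => False

theorem sub_chain {A : V → V → Prop} {x w : V} (h : A x w) :
    ∀ l : List (Option V), l.IsChain (sub A x w) → (l.filterMap id).IsChain A
  | [], _ => by simp
  | [some s], _ => by simp
  | none :: l, hc => by simpa using sub_chain h l hc.tail
  | some s :: some t :: l, hc => by
    rw [isChain_cons_cons] at hc
    have := sub_chain h _ hc.2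
    simp only [filterMap_cons, id] at this ⊢
    exact isChain_cons_cons.2 ⟨hc.1.1, this⟩
  | [some s, none], _ => by simp
  | some s :: none :: none :: l, hc => by simp [sub] at hc
  | some s :: none :: some t :: l, hc => by
    rw [isChain_cons_cons, isChain_cons_cons] at hc
    have := sub_chain h _ hc.2.2
    obtain rfl : s = x := hc.1
    obtain rfl : t = w := hc.2.1
    simp only [filterMap_cons, id] at this ⊢
    exact isChain_cons_cons.2 ⟨h, this⟩

theorem len_eq : ∀ l : List (Option V), none ∉ l → (l.filterMap id).length = l.length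
  | [], _ => rfl
  | none :: l, h => by simp at h
  | some s :: l, h => by simpa using len_eq l fun e => h (mem_cons_of_mem _ e)

theorem len_le : ∀ l : List (Option V), l.Nodup → l.length ≤ (l.filterMap id).length + 1
  | [], _ => by simp
  | none :: l, h => by simpa using (len_eq l (nodup_cons.1 h).1).ge
  | some s :: l, h => by simpa using len_le l (nodup_cons.1 h).2

theorem sub_lift {A : V → V → Prop} {x w : V} (h : ∀ s, A x s → s = w) :
    ∀ (t : List V) (s : V), (s :: t).Nodup → (s :: t).IsChain A → x ∈ s :: t →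
      ∃ l : List (Option V), (some s :: l).Nodup ∧ (some s :: l).IsChain (sub A x w) ∧
        l.length = t.length + 1 ∧ ∀ z, some z ∈ l ↔ z ∈ t := by
  intro t
  induction t with
  | nil =>
    intro s _ _ hx
    exact ⟨[none], by simp, by simpa [sub] using (mem_singleton.1 hx).symm, rfl, by simp⟩
  | cons y t ih =>
    intro s hn hc hx
    rw [isChain_cons_cons] at hc
    rw [nodup_cons] at hn
    by_cases e : s = x
    · subst e
      refine ⟨none :: (y :: t).map some, ?_, ?_, by simp, by simp⟩
      · have := hn.2.map (Option.some_injective _)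
        simp only [nodup_cons] at this ⊢
        simpa using ⟨by simpa using hn.1, by simpa using this⟩
      · refine isChain_cons_cons.2 ⟨rfl, isChain_cons_cons.2 ⟨h y hc.1, ?_⟩⟩
        rw [← map_cons, isChain_map]
        exact hc.2.imp_of_mem_imp fun p q hp _ e => ⟨e, fun e' => hn.1 (e' ▸ hp)⟩
    · obtain ⟨l, h1, h2, h3, h4⟩ := ih y hn.2 hc.2 ((mem_cons.1 hx).resolve_left (Ne.symm e))
      refine ⟨some y :: l, nodup_cons.2 ⟨?_, h1⟩, isChain_cons_cons.2 ⟨⟨hc.1, e⟩, h2⟩,
        by simp [h3], fun z => by simp [h4]⟩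
      simpa [h4] using hn.1

theorem Good.grow {A : V → V → Prop} {k : ℕ} {a b c x u w : V} (h : Good A k a b c x u w) :
    Good (sub A x w) (k + 1) (some a) (some b) (some c) (some x) (some u) none := by
  have xw : A x w := (h.out w).2 rfl
  have xx : ¬ A x x := fun e => h.asym _ _ e e
  have ux : u ≠ x := fun e => xx ((h.inn x).2 e.symm)
  have wx : w ≠ x := fun e => xx (e ▸ xw)
  have nd : ∀ l : List (Option V), l.Nodup → (l.filterMap id).Nodup := fun l hl =>
    hl.filterMap fun p q z a b => by
      simp only [id, Option.mem_def] at a b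
      rw [a, b]
  have lift : ∀ s t, ReflTransGen (sub A x w) (some s) (some t) := fun s t =>
    (h.strong s t).lift' some fun p q e => by
      by_cases f : p = x
      · subst f
        exact .head (b := none) rfl (.single ((h.out q).1 e))
      · exact .single ⟨e, f⟩
  have hd : ∀ t : List (Option V), (none :: t).Nodup → (none :: t).IsChain (sub A x w) → t ≠ [] →
      ∃ r : List V, (w :: r).Nodup ∧ (w :: r).IsChain A ∧ r.length + 1 = t.length ∧
        ∀ z, some z ∈ t → z ∈ w :: r := by
    intro t hn hc ne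
    match t, hn, hc, ne with
    | none :: t, _, hc, _ => simp [sub] at hc
    | some y :: t, hn, hc, _ =>
      rw [isChain_cons_cons] at hc
      obtain rfl : y = w := hc.1
      rw [nodup_cons] at hn
      exact ⟨t.filterMap id, nd _ hn.2, sub_chain xw _ hc.2, len_eq _ hn.1,
        fun z hz => by simpa using hz⟩
  refine ⟨?_, fun s t => ?_, fun l hn hc => ?_, fun s t hn hc e => ?_,
    fun t hn hc e => ?_, ⟨h.ab, h.nx a (by simp)⟩, ⟨h.bc, h.nx b (by simp)⟩,
    ⟨h.ca, h.nx c (by simp)⟩, fun z hz => ?_, fun s => ?_, fun s => ?_⟩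
  · rintro (_ | s) (_ | t) p q
    · exact p
    · exact wx (Eq.trans (Eq.symm p) q)
    · exact wx (Eq.trans (Eq.symm q) p)
    · exact h.asym _ _ p.1 q.1
  · have p : ReflTransGen (sub A x w) s (some w) := by
      cases s
      exacts [.single rfl, lift _ _]
    have q : ReflTransGen (sub A x w) (some x) t := by
      cases t
      exacts [.single rfl, lift _ _]
    exact p.trans ((lift _ _).trans q)
  · have := h.max _ (nd l hn) (sub_chain xw l hc)
    have := len_le l hn
    omega
  · cases s with
    | none =>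
      obtain ⟨l, _, _, h3, _, h5⟩ := h.miss a (by simp)
      have := length_pos_of_mem h5
      obtain ⟨r, r1, r2, r3, _⟩ := hd t hn hc (by rintro rfl; simp at e; omega)
      by_cases f : x ∈ r
      · have := h.cyc r r1 r2 f; omega
      · have := h.max (x :: w :: r) (nodup_cons.2 ⟨by simp [f, wx.symm], r1⟩)
          (isChain_cons_cons.2 ⟨xw, r2⟩)
        simp at this
        omega
    | some s =>
      have h1 := nd _ hn
      have h2 := sub_chain xw _ hc
      have h3 := h.max _ h1 h2
      have h4 := len_le _ hn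
      simp only [filterMap_cons, id, length_cons] at h1 h2 h3 h4
      simpa using h.org _ _ h1 h2 (by omega)
  · obtain ⟨r, r1, r2, r3, r4⟩ := hd t hn hc (ne_nil_of_mem e)
    have := h.cyc r r1 r2 ((mem_cons.1 (r4 x e)).resolve_left wx.symm)
    omega
  · obtain ⟨y, rfl, hy⟩ : ∃ y, z = some y ∧ (y = a ∨ y = b ∨ y = c) := by
      rcases hz with rfl | rfl | rfl <;> simp
    obtain ⟨l, h1, h2, h3, h4, h5⟩ := h.miss y hy
    match l, h1, h2, h3, h4, h5 with
    | s :: t, h1, h2, h3, h4, h5 =>
      obtain ⟨l, l1, l2, l3, l4⟩ := sub_lift (fun s e => (h.out s).1 e) t s h1 h2 h5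
      exact ⟨_, l1, l2, by simp at h3 ⊢; omega, by simpa [l4] using h4, by simpa [l4] using h5⟩
  · cases s with
    | none => simp [sub, wx.symm]
    | some s =>
      simp only [sub, h.inn, Option.some.injEq]
      exact ⟨fun p => p.1, fun p => ⟨p, p ▸ ux⟩⟩
  · cases s <;> simp [sub]

end Pool.Agent.LP163
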